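import Mathlib

/-! A unimodular equation over a solvable group of derived length 3 with no solution in any
solvable overgroup of derived length 3. -/

namespace Pool.Agent.Results.MP_82f72d_al.Exists

open scoped commutatorElement

/-- `G` is solvable of derived length exactly `d`. -/
def DerivedLength (G : Type) [Group G] (d : ℕ) : Prop :=
  derivedSeries G d = ⊥ ∧ ∀ e < d, derivedSeries G e ≠ ⊥

/-- The wreath product of the affine group of `𝔽₇` with `C₂`. -/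
@[ext] structure G where
  b₁ : ZMod 7
  b₂ : ZMod 7
  a₁ : (ZMod 7)ˣ
  a₂ : (ZMod 7)ˣ
  e : Bool
  deriving DecidableEq

instance : Mul G := ⟨fun x y => ⟨x.b₁ + x.a₁ * (if x.e then y.b₂ else y.b₁),
  x.b₂ + x.a₂ * (if x.e then y.b₁ else y.b₂), x.a₁ * (if x.e then y.a₂ else y.a₁),
  x.a₂ * (if x.e then y.a₁ else y.a₂), xor x.e y.e⟩⟩
instance : One G := ⟨⟨0, 0, 1, 1, false⟩⟩
instance : Inv G := ⟨fun x => if x.e then ⟨-(x.a₂⁻¹ * x.b₂), -(x.a₁⁻¹ * x.b₁), x.a₂⁻¹, x.a₁⁻¹, true⟩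
  else ⟨-(x.a₁⁻¹ * x.b₁), -(x.a₂⁻¹ * x.b₂), x.a₁⁻¹, x.a₂⁻¹, false⟩⟩

theorem mul_def (x y : G) : x * y = ⟨x.b₁ + x.a₁ * (if x.e then y.b₂ else y.b₁),
  x.b₂ + x.a₂ * (if x.e then y.b₁ else y.b₂), x.a₁ * (if x.e then y.a₂ else y.a₁),
  x.a₂ * (if x.e then y.a₁ else y.a₂), xor x.e y.e⟩ := rfl
theorem one_def : (1 : G) = ⟨0, 0, 1, 1, false⟩ := rfl
theorem inv_def (x : G) : x⁻¹ = if x.e then
    ⟨-((x.a₂⁻¹ : (ZMod 7)ˣ) * x.b₂), -((x.a₁⁻¹ : (ZMod 7)ˣ) * x.b₁), x.a₂⁻¹, x.a₁⁻¹, true⟩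
  else ⟨-((x.a₁⁻¹ : (ZMod 7)ˣ) * x.b₁), -((x.a₂⁻¹ : (ZMod 7)ˣ) * x.b₂), x.a₁⁻¹, x.a₂⁻¹, false⟩ := rfl

instance : Group G := Group.ofLeftAxioms
  (fun ⟨_, _, _, _, e⟩ ⟨_, _, _, _, f⟩ ⟨_, _, _, _, g⟩ => by
    cases e <;> cases f <;> simp [mul_def, mul_add, mul_assoc, add_assoc])
  (fun x => by simp [mul_def, one_def])
  (fun ⟨_, _, _, _, e⟩ => by cases e <;> simp [mul_def, one_def, inv_def])

/-- The base group. -/
def K₁ : Subgroup G where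
  carrier := {x | x.e = false}
  one_mem' := rfl
  mul_mem' := fun {x y} hx hy => by simp_all [mul_def]
  inv_mem' := fun {x} hx => by simp_all [inv_def]

/-- The translations. -/
def K₂ : Subgroup G where
  carrier := {x | x.e = false ∧ x.a₁ = 1 ∧ x.a₂ = 1}
  one_mem' := ⟨rfl, rfl, rfl⟩
  mul_mem' := fun {x y} hx hy => by simp_all [mul_def]
  inv_mem' := fun {x} hx => by simp_all [inv_def]

theorem d1 : derivedSeries G 1 ≤ K₁ := Subgroup.commutator_le.2 <| by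
  rintro ⟨_, _, _, _, e⟩ - ⟨_, _, _, _, f⟩ -
  show G.e _ = false
  cases e <;> cases f <;> simp [commutatorElement_def, mul_def, inv_def]

theorem d2 : derivedSeries G 2 ≤ K₂ := (Subgroup.commutator_mono d1 d1).trans <|
  Subgroup.commutator_le.2 <| by
    rintro ⟨_, _, _, _, e⟩ (rfl : e = false) ⟨_, _, _, _, f⟩ (rfl : f = false)
    show G.e _ = false ∧ G.a₁ _ = 1 ∧ G.a₂ _ = 1
    simp [commutatorElement_def, mul_def, inv_def]

theorem d3 : derivedSeries G 3 = ⊥ := eq_bot_iff.2 <| (Subgroup.commutator_mono d2 d2).trans <|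
  Subgroup.commutator_le.2 <| by
    rintro ⟨_, _, _, _, e⟩ ⟨rfl : e = false, rfl, rfl⟩ ⟨_, _, _, _, f⟩ ⟨rfl : f = false, rfl, rfl⟩
    simp [commutatorElement_def, mul_def, inv_def, one_def]

/-- A unit of order 6. -/
def u : (ZMod 7)ˣ := ⟨3, 5, by decide, by decide⟩
/-- An element of order 6 of the derived subgroup. -/
def c : G := ⟨0, 0, u, u⁻¹, false⟩
/-- A translation. -/
def v : G := ⟨1, 0, 1, 1, false⟩

theorem hc : c ∈ derivedSeries G 1 := by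
  have : c = ⁅(⟨0, 0, u, 1, false⟩ : G), (⟨0, 0, 1, 1, true⟩ : G)⁆ := by decide +kernel
  rw [this]
  exact Subgroup.commutator_mem_commutator (Subgroup.mem_top _) (Subgroup.mem_top _)

theorem hv : v ∈ derivedSeries G 2 := by
  have h1 : v ^ 4 = ⁅c, v ^ 2⁆ := by decide +kernel
  have h2 : v = ⁅c, v ^ 4⁆ := by decide +kernel
  rw [h2]
  refine Subgroup.commutator_mem_commutator hc ?_
  rw [h1]
  exact Subgroup.commutator_mem_commutator (Subgroup.mem_top _) (Subgroup.mem_top _)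

open Monoid Coprod in
theorem result : ∃ (G : Type) (_ : Group G) (d : ℕ) (w : G ∗ Multiplicative ℤ),
    3 ≤ d ∧ DerivedLength G d ∧
    (Coprod.lift (1 : G →* Multiplicative ℤ) (MonoidHom.id _) w = Multiplicative.ofAdd 1 ∨
      Coprod.lift (1 : G →* Multiplicative ℤ) (MonoidHom.id _) w = Multiplicative.ofAdd (-1)) ∧
    ∀ (H : Type) [Group H] (ι : G →* H), Function.Injective ι → DerivedLength H d →
      ∀ h : H, Coprod.lift ι (zpowersHom H h) w ≠ 1 := by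
  refine ⟨G, inferInstance, 3, inl (c⁻¹ * c⁻¹) * inr (Multiplicative.ofAdd 1) * inl c *
    (inr (Multiplicative.ofAdd 1))⁻¹ * inl c * inr (Multiplicative.ofAdd 1) * inl v, le_rfl,
    ⟨d3, fun e he h => ?_⟩, Or.inl (by simp), fun H _ ι hι hH h hw => ?_⟩
  · have := derivedSeries_antitone G (show e ≤ 2 by omega) hv
    rw [h, Subgroup.mem_bot] at this
    exact absurd this (by decide +kernel)
  simp only [map_mul, map_inv, lift_apply_inl, lift_apply_inr, zpowersHom_apply, toAdd_ofAdd,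
    zpow_one] at hw
  have hC := map_derivedSeries_le_derivedSeries ι 1 ⟨c, hc, rfl⟩
  have hV := map_derivedSeries_le_derivedSeries ι 2 ⟨v, hv, rfl⟩
  have h6 : ι c ^ 6 = 1 := by rw [← map_pow, show c ^ 6 = 1 by decide +kernel, map_one]
  have hne : ¬ (ι c)⁻¹ * ι v * ι c * ι v =
      (ι c ^ 3)⁻¹ * ((ι c)⁻¹ * ι v * ι c * ι v) * ι c ^ 3 := fun h => by
    simp only [← map_pow, ← map_inv, ← map_mul] at h
    exact absurd (hι h) (by decide +kernel)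
  generalize ι c = C at *
  generalize ι v = V at *
  have n1 := derivedSeries_normal H 1
  have n2 := derivedSeries_normal H 2
  have e1 : h = (C⁻¹ * C⁻¹ * (h * C * h⁻¹) * C)⁻¹ * V⁻¹ := by
    calc h = (C⁻¹ * C⁻¹ * (h * C * h⁻¹) * C)⁻¹ * (C⁻¹ * C⁻¹ * h * C * h⁻¹ * C * h * V) * V⁻¹ := by
          group
      _ = _ := by rw [hw, mul_one]
  have h1 : h ∈ derivedSeries H 1 := by
    rw [e1]
    exact mul_mem (inv_mem (mul_mem (mul_mem (mul_mem (inv_mem hC) (inv_mem hC))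
      (n1.conj_mem _ hC h)) hC)) (inv_mem (derivedSeries_antitone H one_le_two hV))
  have h2 : h ∈ derivedSeries H 2 := by
    have e2 : h = ((C * C)⁻¹ * ⁅h, C⁆ * (C * C))⁻¹ * V⁻¹ := by
      conv_lhs => rw [e1]
      rw [commutatorElement_def]; group
    rw [e2]
    exact mul_mem (inv_mem (n2.conj_mem' _ (Subgroup.commutator_mem_commutator h1 hC) _))
      (inv_mem hV)
  have hcomm : ∀ x ∈ derivedSeries H 2, ∀ y ∈ derivedSeries H 2, Commute x y := fun x hx y hy => by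
    have : ⁅x, y⁆ ∈ derivedSeries H 3 := Subgroup.commutator_mem_commutator hx hy
    rwa [hH.1, Subgroup.mem_bot, commutatorElement_eq_one_iff_commute] at this
  have hT : ∀ k : ℕ, (C ^ k)⁻¹ * h * C ^ k ∈ derivedSeries H 2 := fun k => n2.conj_mem' _ h2 _
  have e3 : V = h⁻¹ * ((C ^ 1)⁻¹ * h * C ^ 1) * ((C ^ 2)⁻¹ * h * C ^ 2)⁻¹ := by
    calc V = h⁻¹ * ((C ^ 1)⁻¹ * h * C ^ 1) * ((C ^ 2)⁻¹ * h * C ^ 2)⁻¹ *
          (C⁻¹ * C⁻¹ * h * C * h⁻¹ * C * h * V) := by group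
      _ = _ := by rw [hw, mul_one]
  have e4 : C⁻¹ * V * C * V = ((C ^ 3)⁻¹ * h * C ^ 3)⁻¹ * h⁻¹ := by
    have a1 : C⁻¹ * V * C = ((C ^ 1)⁻¹ * h * C ^ 1)⁻¹ * ((C ^ 2)⁻¹ * h * C ^ 2) *
        ((C ^ 3)⁻¹ * h * C ^ 3)⁻¹ := by rw [e3]; group
    rw [a1, e3]
    have t1 := hT 1
    have t2 := hT 2
    have t3 := hT 3
    generalize (C ^ 1)⁻¹ * h * C ^ 1 = p at *
    generalize (C ^ 2)⁻¹ * h * C ^ 2 = q at *
    generalize (C ^ 3)⁻¹ * h * C ^ 3 = r at *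
    have b1 := (hcomm _ (mul_mem (inv_mem t1) t2) _ (mul_mem (inv_mem t3) (inv_mem h2))).eq
    have b2 := (hcomm _ t1 _ t2).eq
    calc p⁻¹ * q * r⁻¹ * (h⁻¹ * p * q⁻¹) = p⁻¹ * q * (r⁻¹ * h⁻¹) * p * q⁻¹ := by group
      _ = r⁻¹ * h⁻¹ * p⁻¹ * (q * p) * q⁻¹ := by rw [b1]; group
      _ = _ := by rw [← b2]; group
  apply hne
  rw [e4, (hcomm _ (inv_mem (hT 3)) _ (inv_mem h2)).eq]
  calc h⁻¹ * ((C ^ 3)⁻¹ * h * C ^ 3)⁻¹ = (C ^ 6)⁻¹ * h⁻¹ * C ^ 6 * ((C ^ 3)⁻¹ * h * C ^ 3)⁻¹ := by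
        rw [h6]; group
    _ = (C ^ 3)⁻¹ * (((C ^ 3)⁻¹ * h * C ^ 3)⁻¹ * h⁻¹) * C ^ 3 := by group
    _ = _ := by rw [(hcomm _ (inv_mem (hT 3)) _ (inv_mem h2)).eq]

end Pool.Agent.Results.MP_82f72d_al.Exists
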